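import Mathlib

/-! Chevalley-Warning for quadratic maps over the field with two elements. -/

set_option autoImplicit false

namespace Pool.Agent.Lib_helper42

universe u v

theorem zmod2_cases (c : ZMod 2) : c = 0 ∨ c = 1 := by revert c; decide

open MvPolynomial in
/-- An anisotropic quadratic map `V → B` over `ZMod 2` satisfies `|V| ≤ |B|^2`. -/
theorem cw_core {V : Type u} {B : Type v} [AddCommGroup V] [Module (ZMod 2) V] [Finite V]
    [AddCommGroup B] [Module (ZMod 2) B] [Finite B] (Q : QuadraticMap (ZMod 2) V B)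
    (h : ∀ x, Q x = 0 → x = 0) : Nat.card V ≤ (Nat.card B) ^ 2 := by
  classical
  have : Fact (Nat.Prime 2) := ⟨Nat.prime_two⟩
  have hVfin : Module.Finite (ZMod 2) V := Module.Finite.of_finite
  have hBfin : Module.Finite (ZMod 2) B := Module.Finite.of_finite
  set d := Module.finrank (ZMod 2) V with hd
  set s := Module.finrank (ZMod 2) B with hs
  have hcV : Nat.card V = 2 ^ d := by
    rw [Module.natCard_eq_pow_finrank (K := ZMod 2) (V := V), Nat.card_zmod]
  have hcB : Nat.card B = 2 ^ s := by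
    rw [Module.natCard_eq_pow_finrank (K := ZMod 2) (V := B), Nat.card_zmod]
  rw [hcV, hcB, ← pow_mul]
  apply Nat.pow_le_pow_right (by norm_num)
  by_contra hcon
  push Not at hcon
  let bV := Module.finBasis (ZMod 2) V
  let bB := Module.finBasis (ZMod 2) B
  obtain ⟨β, hβ⟩ := LinearMap.BilinMap.toQuadraticMap_surjective Q
  let f : Fin s → MvPolynomial (Fin d) (ZMod 2) := fun i =>
    ∑ j, ∑ k, C (bB.repr (β (bV j) (bV k)) i) * X j * X k
  have hdeg : ∀ i, (f i).totalDegree ≤ 2 := by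
    intro i
    refine totalDegree_finsetSum_le ?_
    intro j _
    refine totalDegree_finsetSum_le ?_
    intro k _
    refine (totalDegree_mul _ _).trans ?_
    have h1 : (X k : MvPolynomial (Fin d) (ZMod 2)).totalDegree ≤ 1 := by
      exact (totalDegree_X k).le
    have h2 : (C (bB.repr (β (bV j) (bV k)) i) * X j : MvPolynomial (Fin d) (ZMod 2)).totalDegree
        ≤ 1 := by
      refine (totalDegree_mul _ _).trans ?_
      rw [totalDegree_C, zero_add]
      exact (totalDegree_X j).le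
    omega
  have heval : ∀ (x : Fin d → ZMod 2) (i : Fin s),
      eval x (f i) = bB.repr (Q (∑ j, x j • bV j)) i := by
    intro x i
    have h1 : Q (∑ j, x j • bV j) = β (∑ j, x j • bV j) (∑ j, x j • bV j) := by
      rw [← hβ]; rfl
    rw [h1]
    simp only [f, map_sum, map_mul, eval_C, eval_X, LinearMap.sum_apply, map_smul,
      LinearMap.smul_apply, Finsupp.coe_finsetSum, Finset.sum_apply, Finsupp.smul_apply,
      smul_eq_mul]
    rw [Finset.sum_comm]
    refine Finset.sum_congr rfl ?_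
    intro j _
    rw [Finset.mul_sum]
    refine Finset.sum_congr rfl ?_
    intro k _
    ring
  have hsum : ∑ i ∈ (Finset.univ : Finset (Fin s)), (f i).totalDegree < Fintype.card (Fin d) := by
    calc ∑ i ∈ (Finset.univ : Finset (Fin s)), (f i).totalDegree
        ≤ ∑ i ∈ (Finset.univ : Finset (Fin s)), 2 := Finset.sum_le_sum (fun i _ => hdeg i)
      _ = s * 2 := by simp
      _ < d := by omega
      _ = Fintype.card (Fin d) := by simp
  have hdvd := char_dvd_card_solutions_of_sum_lt (K := ZMod 2) 2 hsum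
  rw [Fintype.card_eq_nat_card] at hdvd
  have hone : Nat.card {x : Fin d → ZMod 2 // ∀ i ∈ (Finset.univ : Finset (Fin s)),
      eval x (f i) = 0} = 1 := by
    rw [Nat.card_eq_fintype_card, Fintype.card_eq_one_iff]
    refine ⟨⟨0, ?_⟩, ?_⟩
    · intro i _
      rw [heval]
      simp
    · rintro ⟨x, hx⟩
      apply Subtype.ext
      have h3 : Q (∑ j, x j • bV j) = 0 := by
        apply bB.repr.injective
        ext i
        rw [← heval, hx i (Finset.mem_univ i)]
        simp
      have h4 := h _ h3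
      have h5 := Fintype.linearIndependent_iff.mp bV.linearIndependent x h4
      funext j
      exact h5 j
  rw [hone] at hdvd
  omega

/-- Build a quadratic map over `ZMod 2` from a function and its biadditive polarization. -/
noncomputable def mkQuad {V : Type u} {B : Type v} [AddCommGroup V] [Module (ZMod 2) V]
    [AddCommGroup B] [Module (ZMod 2) B] (Q : V → B) (b : V → V → B)
    (hQ : ∀ x y, Q (x + y) = Q x + Q y + b x y)
    (hb1 : ∀ x x' y, b (x + x') y = b x y + b x' y)
    (hb2 : ∀ x y y', b x (y + y') = b x y + b x y') : QuadraticMap (ZMod 2) V B where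
  toFun := Q
  toFun_smul := by
    have h0 : Q 0 = 0 := by
      have h1 := hQ 0 0
      have h2 := hb1 0 0 0
      simp only [add_zero] at h1 h2
      have h3 : b 0 0 = 0 := by simpa using h2
      rw [h3, add_zero] at h1
      simpa using h1
    intro a x
    have : a = 0 ∨ a = 1 := zmod2_cases a
    rcases this with rfl | rfl
    · simp [h0]
    · simp
  exists_companion' := by
    refine ⟨LinearMap.mk₂ (ZMod 2) b hb1 ?_ hb2 ?_, ?_⟩
    · intro c x y
      have : c = 0 ∨ c = 1 := zmod2_cases c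
      rcases this with rfl | rfl
      · have h2 := hb1 0 0 y
        simp only [add_zero] at h2
        have h3 : b 0 y = 0 := by simpa using h2
        simp [h3]
      · simp
    · intro c x y
      have : c = 0 ∨ c = 1 := zmod2_cases c
      rcases this with rfl | rfl
      · have h2 := hb2 x 0 0
        simp only [add_zero] at h2
        have h3 : b x 0 = 0 := by simpa using h2
        simp [h3]
      · simp
    · intro x y
      rw [hQ]; rfl

theorem mkQuad_apply {V : Type u} {B : Type v} [AddCommGroup V] [Module (ZMod 2) V]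
    [AddCommGroup B] [Module (ZMod 2) B] (Q : V → B) (b : V → V → B)
    (hQ : ∀ x y, Q (x + y) = Q x + Q y + b x y)
    (hb1 : ∀ x x' y, b (x + x') y = b x y + b x' y)
    (hb2 : ∀ x y y', b x (y + y') = b x y + b x y') (x : V) :
    mkQuad Q b hQ hb1 hb2 x = Q x := rfl

theorem add_self_zmod2 {V : Type u} [AddCommGroup V] [Module (ZMod 2) V] (x : V) : x + x = 0 := by
  have h : ((2 : ZMod 2)) • x = 0 := by
    have : (2 : ZMod 2) = 0 := by decide
    rw [this, zero_smul]
  rw [show (2 : ZMod 2) = 1 + 1 by decide, add_smul, one_smul] at h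
  exact h

/-- Relative version: if moreover `W ≤ B` is hit by the radical, then `|V| |W| ≤ |B|^2`. -/
theorem cw_rel {V : Type u} {B : Type v} [AddCommGroup V] [Module (ZMod 2) V] [Finite V]
    [AddCommGroup B] [Module (ZMod 2) B] [Finite B] (Q : V → B) (b : V → V → B)
    (hQ : ∀ x y, Q (x + y) = Q x + Q y + b x y)
    (hb1 : ∀ x x' y, b (x + x') y = b x y + b x' y)
    (hb2 : ∀ x y y', b x (y + y') = b x y + b x y')
    (h : ∀ x, Q x = 0 → x = 0) (W : Submodule (ZMod 2) B)
    (hW : ∀ w ∈ W, ∃ r, Q r = w ∧ ∀ y, b r y = 0) :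
    Nat.card V * Nat.card W ≤ (Nat.card B) ^ 2 := by
  classical
  have : Fact (Nat.Prime 2) := ⟨Nat.prime_two⟩
  have hb0 : ∀ y, b 0 y = 0 := by
    intro y
    have h2 := hb1 0 0 y
    simp only [add_zero] at h2
    simpa using h2
  have hQ0 : Q 0 = 0 := by
    have h1 := hQ 0 0
    rw [hb0, add_zero, add_zero] at h1
    simpa using h1
  have hsymm : ∀ x y, b x y = b y x := by
    intro x y
    have h1 := hQ x y
    have h2 := hQ y x
    rw [add_comm y x, h1, add_comm (Q y) (Q x)] at h2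
    exact add_left_cancel h2
  let R : Submodule (ZMod 2) V :=
    { carrier := {r | (∀ y, b r y = 0) ∧ Q r ∈ W}
      zero_mem' := ⟨hb0, by rw [hQ0]; exact W.zero_mem⟩
      add_mem' := by
        rintro x y ⟨hx1, hx2⟩ ⟨hy1, hy2⟩
        refine ⟨fun z => by rw [hb1, hx1, hy1, add_zero], ?_⟩
        rw [hQ, hx1, add_zero]
        exact W.add_mem hx2 hy2
      smul_mem' := by
        rintro c x ⟨hx1, hx2⟩
        have : c = 0 ∨ c = 1 := zmod2_cases c
        rcases this with rfl | rfl
        · rw [zero_smul]; exact ⟨hb0, by rw [hQ0]; exact W.zero_mem⟩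
        · rw [one_smul]; exact ⟨hx1, hx2⟩ }
  have hRW : Nat.card R = Nat.card W := by
    refine Nat.card_congr (Equiv.ofBijective (fun r : R => (⟨Q r, r.2.2⟩ : W)) ⟨?_, ?_⟩)
    · rintro ⟨x, hx1, hx2⟩ ⟨y, hy1, hy2⟩ hxy
      have hxy' : Q x = Q y := congrArg Subtype.val hxy
      apply Subtype.ext
      show x = y
      have h3 : Q (x + y) = 0 := by
        rw [hQ, hx1, add_zero, hxy', add_self_zmod2]
      have h4 := h _ h3
      calc x = x + (y + y) := by rw [add_self_zmod2, add_zero]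
        _ = y := by rw [← add_assoc, h4, zero_add]
    · rintro ⟨w, hw⟩
      obtain ⟨r, hr1, hr2⟩ := hW w hw
      exact ⟨⟨r, hr2, by rw [hr1]; exact hw⟩, Subtype.ext hr1⟩
  obtain ⟨V0, hV0⟩ := Submodule.exists_isCompl R
  have hcard1 : Nat.card V = Nat.card R * Nat.card V0 := by
    rw [← Nat.card_prod]
    exact Nat.card_congr (Submodule.prodEquivOfIsCompl R V0 hV0).symm.toEquiv
  have hfinq : Finite (B ⧸ W) := Finite.of_surjective _ (Submodule.mkQ_surjective W)
  let q : QuadraticMap (ZMod 2) V0 (B ⧸ W) :=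
    W.mkQ.compQuadraticMap ((mkQuad Q b hQ hb1 hb2).comp V0.subtype)
  have hq : ∀ x : V0, q x = W.mkQ (Q x) := fun x => rfl
  have hqan : ∀ x : V0, q x = 0 → x = 0 := by
    intro x hx
    rw [hq, Submodule.mkQ_apply, Submodule.Quotient.mk_eq_zero] at hx
    obtain ⟨r, hr1, hr2⟩ := hW _ hx
    have hrR : r ∈ R := ⟨hr2, by rw [hr1]; exact hx⟩
    have h3 : Q ((x : V) + r) = 0 := by
      rw [hQ, hsymm, hr2, add_zero, hr1, add_self_zmod2]
    have h4 := h _ h3
    have h5 : (x : V) = r := by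
      calc (x : V) = x + (r + r) := by rw [add_self_zmod2, add_zero]
        _ = r := by rw [← add_assoc, h4, zero_add]
    have h6 : (x : V) ∈ R ⊓ V0 := ⟨by rw [h5]; exact hrR, x.2⟩
    rw [hV0.inf_eq_bot, Submodule.mem_bot] at h6
    exact Subtype.ext h6
  have hcard2 := cw_core q hqan
  have hcard3 : Nat.card B = Nat.card W * Nat.card (B ⧸ W) :=
    Submodule.card_eq_card_quotient_mul_card W
  rw [hcard1, hcard3, hRW]
  calc Nat.card W * Nat.card V0 * Nat.card W
      = (Nat.card W) ^ 2 * Nat.card V0 := by ring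
    _ ≤ (Nat.card W) ^ 2 * (Nat.card (B ⧸ W)) ^ 2 := Nat.mul_le_mul_left _ hcard2
    _ = _ := by ring

/-- A subgroup containing all squares is the kernel of a surjection onto a vector space over
`ZMod 2`. -/
theorem exists_module (H : Type u) [Group H] [Finite H] (K : Subgroup H)
    (hK : ∀ x : H, x ^ 2 ∈ K) :
    ∃ (V : Type u) (_ : AddCommGroup V) (_ : Module (ZMod 2) V) (_ : Finite V) (π : H → V),
      (∀ x y, π (x * y) = π x + π y) ∧ Function.Surjective π ∧ (∀ x, π x = 0 ↔ x ∈ K) ∧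
      Nat.card V * Nat.card K = Nat.card H := by
  have hn : K.Normal := by
    constructor
    intro k hk g
    have h : g * k * g⁻¹ = (g * k) ^ 2 * (k⁻¹ * g⁻¹ * k) ^ 2 * k⁻¹ := by
      simp only [pow_two]; group
    rw [h]
    exact K.mul_mem (K.mul_mem (hK _) (hK _)) (K.inv_mem hk)
  have hsq : ∀ x : H ⧸ K, x * x = 1 := by
    intro xb
    refine QuotientGroup.induction_on xb ?_
    intro x
    rw [← QuotientGroup.mk_mul, QuotientGroup.eq_one_iff, ← pow_two]
    exact hK x
  have hcomm : ∀ x y : H ⧸ K, x * y = y * x := by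
    intro x y
    have h1 : x⁻¹ = x := inv_eq_of_mul_eq_one_right (hsq x)
    have h2 : y⁻¹ = y := inv_eq_of_mul_eq_one_right (hsq y)
    have h3 : (x * y)⁻¹ = x * y := inv_eq_of_mul_eq_one_right (hsq _)
    rw [← h3, mul_inv_rev, h1, h2]
  let cg : CommGroup (H ⧸ K) := { (inferInstance : Group (H ⧸ K)) with mul_comm := hcomm }
  let m : Module (ZMod 2) (Additive (H ⧸ K)) := AddCommGroup.zmodModule (by
    intro x
    rw [two_nsmul]
    exact hsq x.toMul)
  refine ⟨Additive (H ⧸ K), inferInstance, m, inferInstance,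
    fun x => Additive.ofMul (x : H ⧸ K), ?_, ?_, ?_, ?_⟩
  · intro x y; rfl
  · intro v
    obtain ⟨x, hx⟩ := QuotientGroup.mk_surjective (s := K) v.toMul
    exact ⟨x, congrArg Additive.ofMul hx⟩
  · intro x
    rw [← ofMul_one]
    constructor
    · intro h
      have h' := Additive.ofMul.injective h
      exact (QuotientGroup.eq_one_iff x).mp h'
    · intro h
      exact congrArg Additive.ofMul ((QuotientGroup.eq_one_iff x).mpr h)
  · have := Subgroup.index_mul_card K
    exact this

/-- Chevalley-Warning count for groups. -/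
theorem cw_group (H : Type u) [Group H] [Finite H] (B : Type v) [Group B] [Finite B]
    (hB : ∀ b : B, b ^ 2 = 1) (φ : H → B) (β : H → H → B)
    (hφ : ∀ x y, φ (x * y) = φ x * φ y * β x y)
    (hβ1 : ∀ x x' y, β (x * x') y = β x y * β x' y)
    (hβ2 : ∀ x y y', β x (y * y') = β x y * β x y')
    (G0 : Subgroup H) (hG0 : ∀ x, φ x = 1 ↔ x ∈ G0)
    (hrad : ∀ g ∈ G0, ∀ y, β g y = 1 ∧ β y g = 1) (hsq : ∀ x : H, x ^ 2 ∈ G0)
    (W : Subgroup B) (hW : ∀ w ∈ W, ∃ p, φ p = w ∧ ∀ y, β p y = 1) :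
    Nat.card H * Nat.card W ≤ Nat.card G0 * (Nat.card B) ^ 2 := by
  classical
  obtain ⟨V, _, _, _, π, hπ, hπs, hπ0, hπc⟩ := exists_module H G0 hsq
  obtain ⟨B', _, _, _, ρ, hρ, hρs, hρ0, hρc⟩ := exists_module B (⊥ : Subgroup B)
    (fun x => by rw [Subgroup.mem_bot]; exact hB x)
  have hρc' : Nat.card B' = Nat.card B := by
    rw [← hρc]; simp
  have hρ1 : ρ 1 = 0 := by
    rw [hρ0, Subgroup.mem_bot]
  have hρinj : Function.Injective ρ := by
    intro x y hxy
    have h1 : ρ (x * y) = 0 := by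
      rw [hρ, hxy, add_self_zmod2]
    rw [hρ0, Subgroup.mem_bot] at h1
    have h2 : y * y = 1 := by rw [← pow_two]; exact hB y
    calc x = x * (y * y) := by rw [h2, mul_one]
      _ = y := by rw [← mul_assoc, h1, one_mul]
  choose σ hσ using hπs
  -- compatibility
  have hπeq : ∀ x y, π x = π y → ∃ g ∈ G0, x = y * g := by
    intro x y hxy
    refine ⟨y⁻¹ * x, ?_, by group⟩
    have h1 : π (y * (y⁻¹ * x)) = π y + π (y⁻¹ * x) := hπ _ _
    rw [mul_inv_cancel_left, hxy] at h1
    rw [← hπ0]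
    simpa using h1
  have hφc : ∀ x y, π x = π y → φ x = φ y := by
    intro x y hxy
    obtain ⟨g, hg, rfl⟩ := hπeq x y hxy
    rw [hφ, (hG0 g).mpr hg, (hrad g hg y).2, mul_one, mul_one]
  have hβc1 : ∀ x y z, π x = π y → β x z = β y z := by
    intro x y z hxy
    obtain ⟨g, hg, rfl⟩ := hπeq x y hxy
    rw [hβ1, (hrad g hg z).1, mul_one]
  have hβc2 : ∀ x y z, π x = π y → β z x = β z y := by
    intro x y z hxy
    obtain ⟨g, hg, rfl⟩ := hπeq x y hxy
    rw [hβ2, (hrad g hg z).2, mul_one]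
  let Q : V → B' := fun v => ρ (φ (σ v))
  let b : V → V → B' := fun u v => ρ (β (σ u) (σ v))
  have hQ : ∀ x y, Q (x + y) = Q x + Q y + b x y := by
    intro x y
    show ρ (φ (σ (x + y))) = ρ (φ (σ x)) + ρ (φ (σ y)) + ρ (β (σ x) (σ y))
    rw [← hρ, ← hρ, ← hφ]
    congr 1
    apply hφc
    rw [hσ, hπ, hσ, hσ]
  have hb1 : ∀ x x' y, b (x + x') y = b x y + b x' y := by
    intro x x' y
    show ρ (β (σ (x + x')) (σ y)) = ρ (β (σ x) (σ y)) + ρ (β (σ x') (σ y))
    rw [← hρ, ← hβ1]
    congr 1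
    apply hβc1
    rw [hσ, hπ, hσ, hσ]
  have hb2 : ∀ x y y', b x (y + y') = b x y + b x y' := by
    intro x y y'
    show ρ (β (σ x) (σ (y + y'))) = ρ (β (σ x) (σ y)) + ρ (β (σ x) (σ y'))
    rw [← hρ, ← hβ2]
    congr 1
    apply hβc2
    rw [hσ, hπ, hσ, hσ]
  have han : ∀ x, Q x = 0 → x = 0 := by
    intro x hx
    have h1 : ρ (φ (σ x)) = 0 := hx
    rw [hρ0, Subgroup.mem_bot, hG0, ← hπ0, hσ] at h1
    exact h1
  let W' : Submodule (ZMod 2) B' :=
    { carrier := {w | ∃ x ∈ W, ρ x = w}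
      zero_mem' := ⟨1, W.one_mem, hρ1⟩
      add_mem' := by
        rintro _ _ ⟨x, hx, rfl⟩ ⟨y, hy, rfl⟩
        exact ⟨x * y, W.mul_mem hx hy, hρ x y⟩
      smul_mem' := by
        rintro c _ ⟨x, hx, rfl⟩
        have : c = 0 ∨ c = 1 := zmod2_cases c
        rcases this with rfl | rfl
        · exact ⟨1, W.one_mem, by rw [zero_smul]; exact hρ1⟩
        · exact ⟨x, hx, by rw [one_smul]⟩ }
  have hWc : Nat.card W = Nat.card W' := by
    refine Nat.card_congr (Equiv.ofBijective (fun w : W => (⟨ρ w, w, w.2, rfl⟩ : W')) ⟨?_, ?_⟩)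
    · intro x y hxy
      have h1 : ρ x = ρ y := congrArg Subtype.val hxy
      exact Subtype.ext (hρinj h1)
    · rintro ⟨_, x, hx, rfl⟩
      exact ⟨⟨x, hx⟩, rfl⟩
  have hW' : ∀ w ∈ W', ∃ r, Q r = w ∧ ∀ y, b r y = 0 := by
    rintro _ ⟨w, hw, rfl⟩
    obtain ⟨p, hp1, hp2⟩ := hW w hw
    refine ⟨π p, ?_, ?_⟩
    · show ρ (φ (σ (π p))) = ρ w
      rw [← hp1]
      congr 1
      apply hφc
      rw [hσ]
    · intro y
      show ρ (β (σ (π p)) (σ y)) = 0
      rw [hβc1 (σ (π p)) p _ (hσ _), hp2, hρ1]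
  have hfin := cw_rel Q b hQ hb1 hb2 han W' hW'
  rw [← hWc, hρc'] at hfin
  rw [← hπc]
  calc Nat.card V * Nat.card G0 * Nat.card W = Nat.card G0 * (Nat.card V * Nat.card W) := by ring
    _ ≤ Nat.card G0 * (Nat.card B) ^ 2 := Nat.mul_le_mul_left _ hfin

end Pool.Agent.Lib_helper42
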