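import Mathlib

/-! Helper lemmas on finite 2-groups in which elements of small order are central. -/

set_option autoImplicit false

namespace Pool.Agent.Lib_helper42

universe u

/-- Inversion lemma: if `x` inverts `c` (of 2-power order) and commutes with every power of `c`
whose fourth power is trivial, then `c ^ 2 = 1`. -/
theorem inversion_lemma {G : Type u} [Group G] (x c : G) (hinv : x⁻¹ * c * x = c⁻¹)
    (hcomm : ∀ j : ℕ, (c ^ j) ^ 4 = 1 → x * c ^ j = c ^ j * x) (n : ℕ)
    (hn : c ^ (2 ^ n) = 1) : c ^ 2 = 1 := by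
  induction n with
  | zero =>
    have : c = 1 := by simpa using hn
    rw [this]; simp
  | succ n ih =>
    rcases n with _ | n
    · simpa using hn
    · have h4 : (c ^ (2 ^ n)) ^ 4 = 1 := by
        rw [← pow_mul]
        have : 2 ^ n * 4 = 2 ^ (n + 1 + 1) := by ring
        rw [this]; exact hn
      have hc := hcomm _ h4
      have h1 : x⁻¹ * c ^ (2 ^ n) * x = (c ^ (2 ^ n))⁻¹ := by
        have h2 : x⁻¹ * c ^ (2 ^ n) * x = (x⁻¹ * c * x) ^ (2 ^ n) := by
          have := conj_pow (i := 2 ^ n) (a := x⁻¹) (b := c)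
          rw [inv_inv] at this
          exact this.symm
        rw [h2, hinv, inv_pow]
      have h3 : c ^ (2 ^ n) = (c ^ (2 ^ n))⁻¹ := by
        rw [← h1, mul_assoc, ← hc, inv_mul_cancel_left]
      apply ih
      have h5 : c ^ (2 ^ n) * c ^ (2 ^ n) = 1 := by
        nth_rewrite 2 [h3]
        exact mul_inv_cancel _
      rw [← pow_add] at h5
      have : 2 ^ (n + 1) = 2 ^ n + 2 ^ n := by ring
      rw [this]; exact h5

/-- In a finite 2-group every element is killed by some power of two. -/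
theorem exists_pow_eq_one {G : Type u} [Group G] (hG : IsPGroup 2 G) (g : G) :
    ∃ n : ℕ, g ^ (2 ^ n) = 1 := hG g

/-- The subgroup of elements of order dividing two, when they are central. -/
def omegaOne {P : Type u} [Group P] (h : ∀ x : P, x ^ 2 = 1 → x ∈ Subgroup.center P) :
    Subgroup P where
  carrier := {x | x ^ 2 = 1}
  one_mem' := by simp
  mul_mem' := by
    intro a b ha hb
    have hc := (Subgroup.mem_center_iff.mp (h a ha)) b
    have hcomm : Commute a b := hc.symm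
    show (a * b) ^ 2 = 1
    rw [hcomm.mul_pow, ha, hb, one_mul]
  inv_mem' := by
    intro a ha
    show (a⁻¹) ^ 2 = 1
    rw [inv_pow, ha, inv_one]

theorem mem_omegaOne {P : Type u} [Group P] (h : ∀ x : P, x ^ 2 = 1 → x ∈ Subgroup.center P)
    (x : P) : x ∈ omegaOne h ↔ x ^ 2 = 1 := Iff.rfl

/-- In a finite 2-group whose elements of order dividing 4 are central, elements of order
dividing 8 have all commutators of order dividing 2. -/
theorem comm_sq_eq_one {P : Type u} [Group P] (hP : IsPGroup 2 P)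
    (h4 : ∀ x : P, x ^ 4 = 1 → x ∈ Subgroup.center P) (x g : P) (hx : x ^ 8 = 1) :
    (x⁻¹ * g⁻¹ * x * g) ^ 2 = 1 := by
  have hx2 : x ^ 2 ∈ Subgroup.center P := h4 _ (by rw [← pow_mul]; exact hx)
  have hx2g : g * x ^ 2 = x ^ 2 * g := Subgroup.mem_center_iff.mp hx2 g
  obtain ⟨n, hn⟩ := hP (x⁻¹ * g⁻¹ * x * g)
  refine inversion_lemma x (x⁻¹ * g⁻¹ * x * g) ?_ ?_ n hn
  · have : x⁻¹ * (x⁻¹ * g⁻¹ * x * g) * x = (x ^ 2)⁻¹ * g⁻¹ * x * g * x := by
      rw [pow_two]; group
    rw [this]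
    have h2 : (x⁻¹ * g⁻¹ * x * g)⁻¹ = g⁻¹ * x⁻¹ * g * x := by group
    rw [h2]
    have h3 : (x ^ 2)⁻¹ * g⁻¹ = g⁻¹ * (x ^ 2)⁻¹ := by
      rw [← mul_inv_rev, ← mul_inv_rev, hx2g]
    rw [h3, pow_two]; group
  · intro j hj
    exact Subgroup.mem_center_iff.mp (h4 _ hj) x

/-- The power map lemma for finite 2-groups whose elements of order dividing 4 are central. -/
theorem pow_hom (i : ℕ) : ∀ (P : Type u) [Group P] [Finite P], IsPGroup 2 P →
    (∀ x : P, x ^ 4 = 1 → x ∈ Subgroup.center P) →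
    ∀ x y : P, x ^ (2 ^ (i + 1)) = 1 → y ^ (2 ^ (i + 1)) = 1 →
      (x * y) ^ (2 ^ i) = x ^ (2 ^ i) * y ^ (2 ^ i) := by
  induction i with
  | zero => intro P _ _ _ _ x y _ _; simp
  | succ i ih =>
    intro P _ _ hP h4 x y hx hy
    have h2 : ∀ x : P, x ^ 2 = 1 → x ∈ Subgroup.center P := by
      intro x hx
      apply h4
      have : (4 : ℕ) = 2 * 2 := rfl
      rw [this, pow_mul, hx, one_pow]
    set N := omegaOne h2 with hN
    have hNnormal : N.Normal := by
      constructor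
      intro n hn g
      have : g * n * g⁻¹ = n := by
        rw [Subgroup.mem_center_iff.mp (h2 n hn) g, mul_inv_cancel_right]
      rw [this]; exact hn
    have hquot : IsPGroup 2 (P ⧸ N) := hP.to_quotient N
    have h4' : ∀ x : P ⧸ N, x ^ 4 = 1 → x ∈ Subgroup.center (P ⧸ N) := by
      intro xb
      refine QuotientGroup.induction_on xb ?_
      intro x hx4
      rw [← QuotientGroup.mk_pow, QuotientGroup.eq_one_iff, hN, mem_omegaOne, ← pow_mul] at hx4
      rw [Subgroup.mem_center_iff]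
      intro gb
      refine QuotientGroup.induction_on gb ?_
      intro g
      have hc := comm_sq_eq_one hP h4 x g hx4
      rw [← QuotientGroup.mk_mul, ← QuotientGroup.mk_mul, QuotientGroup.eq, hN, mem_omegaOne]
      have h5 : (g * x)⁻¹ * (x * g) = x⁻¹ * g⁻¹ * x * g := by group
      rw [h5]; exact hc
    have key : ∀ z : P, z ^ (2 ^ (i + 1 + 1)) = 1 → (z : P ⧸ N) ^ (2 ^ (i + 1)) = 1 := by
      intro z hz
      rw [← QuotientGroup.mk_pow, QuotientGroup.eq_one_iff, hN, mem_omegaOne, ← pow_mul,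
        ← pow_succ]
      exact hz
    have hIH := ih (P ⧸ N) hquot h4' (x : P ⧸ N) (y : P ⧸ N) (key x hx) (key y hy)
    rw [← QuotientGroup.mk_mul, ← QuotientGroup.mk_pow, ← QuotientGroup.mk_pow,
      ← QuotientGroup.mk_pow, ← QuotientGroup.mk_mul, QuotientGroup.eq, hN, mem_omegaOne] at hIH
    set z := ((x * y) ^ (2 ^ i))⁻¹ * (x ^ (2 ^ i) * y ^ (2 ^ i)) with hz
    have hzc := Subgroup.mem_center_iff.mp (h2 z hIH)
    have hxc : x ^ (2 ^ i) ∈ Subgroup.center P := by
      apply h4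
      rw [← pow_mul]
      have : 2 ^ i * 4 = 2 ^ (i + 1 + 1) := by ring
      rw [this]; exact hx
    have hxc' := Subgroup.mem_center_iff.mp hxc
    have h6 : (x * y) ^ (2 ^ i) * z = x ^ (2 ^ i) * y ^ (2 ^ i) := by
      rw [hz, mul_inv_cancel_left]
    have h7 : ((x * y) ^ (2 ^ i) * z) ^ 2 = (x ^ (2 ^ i) * y ^ (2 ^ i)) ^ 2 := by rw [h6]
    have hcz : Commute ((x * y) ^ (2 ^ i)) z := hzc _
    have hcx : Commute (x ^ (2 ^ i)) (y ^ (2 ^ i)) := (hxc' _).symm
    rw [hcz.mul_pow, hcx.mul_pow, hIH, mul_one, ← pow_mul, ← pow_mul, ← pow_mul, ← pow_succ] at h7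
    exact h7

end Pool.Agent.Lib_helper42
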