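import Mathlib
import Pool.Agent.Lib_helper42.TwoCentral1

/-! Alperin type lemma for finite 2-groups with central involutions. -/

set_option autoImplicit false

namespace Pool.Agent.Lib_helper42

universe u

/-- The subgroup generated by all squares. -/
def Sq (G : Type u) [Group G] : Subgroup G := Subgroup.closure {x : G | ∃ g : G, g ^ 2 = x}

theorem sq_mem_Sq {G : Type u} [Group G] (g : G) : g ^ 2 ∈ Sq G :=
  Subgroup.subset_closure ⟨g, rfl⟩

/-- Adjoining to a normal abelian subgroup of exponent 4 an element of order dividing 4 that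
centralizes it and is central modulo it. -/
def adjoin {G : Type u} [Group G] (A : Subgroup G) (x : G)
    (hx : ∀ a ∈ A, x * a = a * x) : Subgroup G where
  carrier := {y | ∃ a ∈ A, ∃ k : ℤ, y = a * x ^ k}
  one_mem' := ⟨1, A.one_mem, 0, by simp⟩
  mul_mem' := by
    rintro y z ⟨a, ha, k, rfl⟩ ⟨b, hb, l, rfl⟩
    refine ⟨a * b, A.mul_mem ha hb, k + l, ?_⟩
    have hc : Commute x b := hx b hb
    have h1 : x ^ k * b = b * x ^ k := (hc.zpow_left k)
    rw [zpow_add, mul_assoc a, ← mul_assoc (x ^ k), h1]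
    group
  inv_mem' := by
    rintro y ⟨a, ha, k, rfl⟩
    refine ⟨a⁻¹, A.inv_mem ha, -k, ?_⟩
    have hc : Commute x a⁻¹ := hx _ (A.inv_mem ha)
    have h1 : x ^ (-k) * a⁻¹ = a⁻¹ * x ^ (-k) := (hc.zpow_left (-k))
    rw [mul_inv_rev, ← zpow_neg, h1]

/-- In a finite 2-group with central involutions there is a normal abelian subgroup `A` of
exponent dividing 4 containing every element of order dividing 4 which centralizes it. -/
theorem exists_alperin {G : Type u} [Group G] [Finite G] (hG : IsPGroup 2 G)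
    (h2 : ∀ x : G, x ^ 2 = 1 → x ∈ Subgroup.center G) :
    ∃ A : Subgroup G, A.Normal ∧ (∀ a ∈ A, ∀ b ∈ A, a * b = b * a) ∧ (∀ a ∈ A, a ^ 4 = 1) ∧
      ∀ x : G, (∀ a ∈ A, x * a = a * x) → x ^ 4 = 1 → x ∈ A := by
  classical
  let S : Set (Subgroup G) := {A | A.Normal ∧ (∀ a ∈ A, ∀ b ∈ A, a * b = b * a) ∧
    (∀ a ∈ A, a ^ 4 = 1)}
  have hne : S.Nonempty := by
    refine ⟨⊥, inferInstance, ?_, ?_⟩
    · intro a ha b hb
      rw [Subgroup.mem_bot] at ha hb
      rw [ha, hb]
    · intro a ha
      rw [Subgroup.mem_bot] at ha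
      rw [ha, one_pow]
  obtain ⟨A, hAS, hAmax⟩ := (wellFounded_gt (α := Subgroup G)).has_min S hne
  obtain ⟨hAn, hAab, hA4⟩ := hAS
  refine ⟨A, hAn, hAab, hA4, ?_⟩
  by_contra hcon
  push Not at hcon
  have hnil : Group.IsNilpotent G := hG.isNilpotent
  have hex : ∃ n : ℕ, ∃ x : G, (∀ a ∈ A, x * a = a * x) ∧ x ^ 4 = 1 ∧ x ∉ A ∧
      x ∈ Subgroup.upperCentralSeries G n := by
    obtain ⟨n, hn⟩ := hnil.nilpotent'
    obtain ⟨x, h1, h3, h4⟩ := hcon
    exact ⟨n, x, h1, h3, h4, by rw [hn]; trivial⟩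
  have hmin := Nat.find_spec hex
  set n := Nat.find hex with hn
  obtain ⟨x, hxA, hx4, hxn, hxZ⟩ := hmin
  rcases n with _ | m
  · have : x = 1 := by
      rw [Subgroup.upperCentralSeries_zero, Subgroup.mem_bot] at hxZ
      exact hxZ
    exact hxn (this ▸ A.one_mem)
  · have hless : ∀ y : G, (∀ a ∈ A, y * a = a * y) → y ^ 4 = 1 →
        y ∈ Subgroup.upperCentralSeries G m → y ∈ A := by
      intro y hy1 hy2 hy3
      by_contra hy4
      have := Nat.find_min hex (m := m) (by omega)
      exact this ⟨y, hy1, hy2, hy4, hy3⟩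
    -- all commutators lie in A
    have hcomm : ∀ g : G, x⁻¹ * g⁻¹ * x * g ∈ A := by
      intro g
      set c := x⁻¹ * g⁻¹ * x * g with hc
      have hcZ : c ∈ Subgroup.upperCentralSeries G m := by
        have h3 : x⁻¹ ∈ Subgroup.upperCentralSeries G (m + 1) := Subgroup.inv_mem _ hxZ
        rw [Subgroup.mem_upperCentralSeries_succ_iff] at h3
        have h4 := h3 g⁻¹
        rw [commutatorElement_def, inv_inv, inv_inv] at h4
        exact h4
      have hgxg : ∀ a ∈ A, (g⁻¹ * x * g) * a = a * (g⁻¹ * x * g) := by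
        intro a ha
        have h5 : g * a * g⁻¹ ∈ A := hAn.conj_mem a ha g
        have h6 := hxA _ h5
        have h7 : (g⁻¹ * x * g) * a = g⁻¹ * (x * (g * a * g⁻¹)) * g := by group
        rw [h7, h6]; group
      have hcA : ∀ a ∈ A, c * a = a * c := by
        intro a ha
        have h8 : c = x⁻¹ * (g⁻¹ * x * g) := by rw [hc]; group
        have h9 : x⁻¹ * a = a * x⁻¹ := by
          have h10 : Commute x a := hxA a ha
          exact h10.inv_left
        rw [h8, mul_assoc, hgxg a ha, ← mul_assoc, h9, mul_assoc]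
      have hx2c : g * x ^ 2 = x ^ 2 * g := by
        apply Subgroup.mem_center_iff.mp
        apply h2
        rw [← pow_mul]; exact hx4
      have hsq : (x * c) ^ 2 = x ^ 2 := by
        have h11 : x * c = g⁻¹ * x * g := by rw [hc]; group
        have h12 : (g⁻¹ * x * g) ^ 2 = g⁻¹ * x ^ 2 * g := by
          rw [pow_two, pow_two]; group
        rw [h11, h12, mul_assoc, ← hx2c, inv_mul_cancel_left]
      have hinv : x⁻¹ * c * x = c⁻¹ := by
        have h13 : x * c * (x * c) = x * x := by rw [← pow_two, ← pow_two]; exact hsq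
        have h14 : c * x * c = x := by
          have h15 : x * (c * x * c) = x * x := by rw [← h13]; group
          exact mul_left_cancel h15
        calc x⁻¹ * c * x = x⁻¹ * (c * x * c) * c⁻¹ := by group
          _ = x⁻¹ * x * c⁻¹ := by rw [h14]
          _ = c⁻¹ := by group
      have hpow : ∀ j : ℕ, (c ^ j) ^ 4 = 1 → c ^ j ∈ A := by
        intro j hj
        refine hless (c ^ j) ?_ hj (Subgroup.pow_mem _ hcZ j)
        intro a ha
        have h16 : Commute c a := hcA a ha
        exact h16.pow_left j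
      obtain ⟨N, hN⟩ := hG c
      have hc2 : c ^ 2 = 1 := by
        refine inversion_lemma x c hinv ?_ N hN
        intro j hj
        exact hxA _ (hpow j hj)
      have := hpow 1 (by rw [pow_one]; rw [show (4 : ℕ) = 2 * 2 from rfl, pow_mul, hc2, one_pow])
      rwa [pow_one] at this
    -- enlarge A
    have hbig : adjoin A x hxA ∈ S := by
      refine ⟨?_, ?_, ?_⟩
      · constructor
        rintro y ⟨a, ha, k, rfl⟩ g
        have hcA := hcomm g⁻¹
        rw [inv_inv] at hcA
        set c := x⁻¹ * g * x * g⁻¹ with hc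
        have h11 : g * x * g⁻¹ = x * c := by rw [hc]; group
        have h12 : g * (a * x ^ k) * g⁻¹ = (g * a * g⁻¹) * (g * x * g⁻¹) ^ k := by
          rw [conj_zpow]; group
        have hxc : Commute x c := hxA c hcA
        refine ⟨g * a * g⁻¹ * c ^ k, A.mul_mem (hAn.conj_mem a ha g) (A.zpow_mem hcA k), k, ?_⟩
        rw [h12, h11, hxc.mul_zpow, mul_assoc, mul_assoc, mul_assoc, mul_assoc, mul_assoc]
        have h13 : x ^ k * c ^ k = c ^ k * x ^ k := (hxc.zpow_zpow k k)
        rw [h13]
      · rintro y ⟨a, ha, k, rfl⟩ z ⟨b, hb, l, rfl⟩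
        have h1 : Commute a b := hAab a ha b hb
        have h3 : Commute x a := hxA a ha
        have h4 : Commute x b := hxA b hb
        have h5 : Commute (x ^ k) b := h4.zpow_left k
        have h6 : Commute a (x ^ l) := (h3.zpow_left l).symm
        have h7 : Commute (x ^ k) (x ^ l) := (Commute.refl x).zpow_zpow k l
        exact (Commute.mul_left (h1.mul_right h6) (h5.mul_right h7))
      · rintro y ⟨a, ha, k, rfl⟩
        have h3 : Commute x a := hxA a ha
        have h5 : Commute a (x ^ k) := (h3.zpow_left k).symm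
        rw [h5.mul_pow, hA4 a ha, one_mul, ← zpow_natCast, ← zpow_mul, mul_comm, zpow_mul,
          zpow_natCast, hx4, one_zpow]
    apply hAmax (adjoin A x hxA) hbig
    show A < adjoin A x hxA
    refine lt_of_le_of_ne ?_ ?_
    · intro a ha
      exact ⟨a, ha, 0, by simp⟩
    · intro heq
      apply hxn
      rw [heq]
      exact ⟨1, A.one_mem, 1, by simp⟩

/-- In a finite 2-group with central involutions, the elements of order dividing 4 in the
subgroup generated by squares are central in that subgroup. -/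
theorem Sq_four_central {G : Type u} [Group G] [Finite G] (hG : IsPGroup 2 G)
    (h2 : ∀ x : G, x ^ 2 = 1 → x ∈ Subgroup.center G) :
    ∀ x ∈ Sq G, x ^ 4 = 1 → ∀ y ∈ Sq G, y * x = x * y := by
  obtain ⟨A, hAn, hAab, hA4, hA⟩ := exists_alperin hG h2
  have hle : Sq G ≤ Subgroup.centralizer (A : Set G) := by
    rw [Sq, Subgroup.closure_le]
    rintro _ ⟨g, rfl⟩
    rw [SetLike.mem_coe, Subgroup.mem_centralizer_iff]
    intro a ha
    have ha' : a ∈ A := ha
    have hb' : g⁻¹ * a * g ∈ A := by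
      have := hAn.conj_mem a ha' g⁻¹
      rwa [inv_inv] at this
    set b := g⁻¹ * a * g with hb
    have ha2 : g * a ^ 2 = a ^ 2 * g := by
      apply Subgroup.mem_center_iff.mp
      apply h2
      rw [← pow_mul]; exact hA4 a ha'
    have hb2 : b ^ 2 = a ^ 2 := by
      have h12 : (g⁻¹ * a * g) ^ 2 = g⁻¹ * a ^ 2 * g := by
        rw [pow_two, pow_two]; group
      rw [hb, h12, mul_assoc, ← ha2, inv_mul_cancel_left]
    have hab : Commute a⁻¹ b := hAab _ (A.inv_mem ha') _ hb'
    have hc2 : (a⁻¹ * b) ^ 2 = 1 := by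
      rw [hab.mul_pow, hb2, inv_pow, inv_mul_cancel]
    have hcc := Subgroup.mem_center_iff.mp (h2 _ hc2) g
    -- g⁻¹ * b * g = b * (a⁻¹ * b) = a
    have h3 : g⁻¹ * b * g = a := by
      have h4 : b = a * (a⁻¹ * b) := by group
      calc g⁻¹ * b * g = (g⁻¹ * a * g) * (g⁻¹ * ((a⁻¹ * b) * g)) := by rw [hb]; group
        _ = b * (g⁻¹ * (g * (a⁻¹ * b))) := by rw [← hcc]
        _ = b * (a⁻¹ * b) := by rw [inv_mul_cancel_left]
        _ = a * ((a⁻¹ * b) * (a⁻¹ * b)) := by group
        _ = a := by rw [← pow_two, hc2, mul_one]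
    have h5 : a * g ^ 2 = g * (b * g) := by rw [hb, pow_two]; group
    rw [h5]
    have h6 : b * g = g * a := by rw [← h3]; group
    rw [h6, pow_two, mul_assoc]
  intro x hx hx4 y hy
  have hxA : x ∈ A := by
    apply hA x _ hx4
    intro a ha
    exact (Subgroup.mem_centralizer_iff.mp (hle hx) a ha).symm
  exact (Subgroup.mem_centralizer_iff.mp (hle hy) x hxA).symm

/-- The power map lemma on the subgroup generated by squares. -/
theorem pow_hom_Sq {G : Type u} [Group G] [Finite G] (hG : IsPGroup 2 G)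
    (h2 : ∀ x : G, x ^ 2 = 1 → x ∈ Subgroup.center G) (i : ℕ) (x y : G) (hx : x ∈ Sq G)
    (hy : y ∈ Sq G) (hx1 : x ^ (2 ^ (i + 1)) = 1) (hy1 : y ^ (2 ^ (i + 1)) = 1) :
    (x * y) ^ (2 ^ i) = x ^ (2 ^ i) * y ^ (2 ^ i) := by
  have hP : IsPGroup 2 (Sq G) := hG.to_subgroup (Sq G)
  have h4 : ∀ x : Sq G, x ^ 4 = 1 → x ∈ Subgroup.center (Sq G) := by
    intro x hx4
    rw [Subgroup.mem_center_iff]
    intro y
    apply Subtype.ext
    have h5 : (x : G) ^ 4 = 1 := by
      rw [← Subgroup.coe_pow, hx4, Subgroup.coe_one]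
    simpa using Sq_four_central hG h2 x x.2 h5 y y.2
  have := pow_hom i (Sq G) hP h4 ⟨x, hx⟩ ⟨y, hy⟩ (by ext; simpa using hx1) (by ext; simpa using hy1)
  have h6 := congrArg (Subtype.val) this
  simpa using h6

end Pool.Agent.Lib_helper42
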