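import Mathlib
import Pool.Agent.Lib_helper42.TwoCentral2

/-! The key descent step for finite 2-groups with central involutions. -/

set_option autoImplicit false

namespace Pool.Agent.Lib_helper42

universe u

/-- The commutator `x⁻¹ y⁻¹ x y`. -/
def cm {G : Type u} [Group G] (x y : G) : G := x⁻¹ * y⁻¹ * x * y

theorem cm_mem_Sq {G : Type u} [Group G] (x y : G) : cm x y ∈ Sq G := by
  have h : cm x y = (x⁻¹) ^ 2 * (x * y⁻¹) ^ 2 * y ^ 2 := by
    rw [cm, pow_two, pow_two, pow_two]; group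
  rw [h]
  exact Subgroup.mul_mem _ (Subgroup.mul_mem _ (sq_mem_Sq _) (sq_mem_Sq _)) (sq_mem_Sq _)

theorem Sq_normal (G : Type u) [Group G] : (Sq G).Normal := by
  constructor
  intro n hn g
  have h : g * n * g⁻¹ = n * cm n g⁻¹ := by rw [cm]; group
  rw [h]
  exact Subgroup.mul_mem _ hn (cm_mem_Sq _ _)

theorem cm_inv {G : Type u} [Group G] (x y : G) : (cm x y)⁻¹ = cm y x := by
  simp only [cm]; group

theorem cm_mul_right {G : Type u} [Group G] (x y z : G) :
    cm x (y * z) = cm x z * (z⁻¹ * cm x y * z) := by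
  simp only [cm]; group

theorem cm_mul_left {G : Type u} [Group G] (x y z : G) :
    cm (x * y) z = (y⁻¹ * cm x z * y) * cm y z := by
  simp only [cm]; group

theorem conj_pow' {G : Type u} [Group G] (x y : G) (n : ℕ) :
    (y⁻¹ * x * y) ^ n = y⁻¹ * x ^ n * y := by
  have := conj_pow (i := n) (a := y⁻¹) (b := x)
  rwa [inv_inv] at this

section Step

variable {G : Type u} [Group G] [Finite G] (hG : IsPGroup 2 G)
  (h2 : ∀ x : G, x ^ 2 = 1 → x ∈ Subgroup.center G)

include h2 in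
/-- conjugation fixes elements of order dividing two. -/
theorem conj_fix (z y : G) (hz : z ^ 2 = 1) : y⁻¹ * z * y = z := by
  have := Subgroup.mem_center_iff.mp (h2 z hz) y
  rw [mul_assoc, ← this, inv_mul_cancel_left]

include h2 in
theorem conj_pow_fix (z y : G) (n : ℕ) (hz : (z ^ n) ^ 2 = 1) :
    (y⁻¹ * z * y) ^ n = z ^ n := by
  rw [conj_pow', conj_fix h2 _ _ hz]

theorem pow_sq_of {z : G} {i : ℕ} (hz : z ^ (2 ^ (i + 1)) = 1) : (z ^ (2 ^ i)) ^ 2 = 1 := by
  rw [← pow_mul, ← pow_succ]; exact hz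

theorem conj_mem_Sq (z y : G) (hz : z ∈ Sq G) : y⁻¹ * z * y ∈ Sq G := by
  have := (Sq_normal G).conj_mem z hz y⁻¹
  rwa [inv_inv] at this

/-- the homomorphism `y ↦ [x,y]^(2^i)`. -/
def bHom (i : ℕ) (x : G) (hx : ∀ y : G, (cm x y) ^ (2 ^ (i + 1)) = 1) : G →* G where
  toFun y := (cm x y) ^ (2 ^ i)
  map_one' := by simp [cm]
  map_mul' := by
    intro y z
    have hconj : (z⁻¹ * cm x y * z) ^ (2 ^ (i + 1)) = 1 := by
      rw [conj_pow', hx y]; group
    rw [cm_mul_right, pow_hom_Sq hG h2 i _ _ (cm_mem_Sq _ _) (conj_mem_Sq _ _ (cm_mem_Sq _ _))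
      (hx z) hconj, conj_pow_fix h2 _ _ _ (pow_sq_of (hx y))]
    exact (Subgroup.mem_center_iff.mp (h2 _ (pow_sq_of (hx y))) _)

/-- the homomorphism `p ↦ [p,x]^(2^i)` on a subgroup contained in the group generated by squares. -/
def yHom (i : ℕ) (x : G) (hx : ∀ p ∈ Sq G, (cm p x) ^ (2 ^ (i + 1)) = 1) : Sq G →* G where
  toFun p := (cm (p : G) x) ^ (2 ^ i)
  map_one' := by simp [cm]
  map_mul' := by
    intro p q
    have hconj : ((q : G)⁻¹ * cm (p : G) x * q) ^ (2 ^ (i + 1)) = 1 := by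
      rw [conj_pow', hx p p.2]; group
    rw [Subgroup.coe_mul, cm_mul_left, pow_hom_Sq hG h2 i _ _ (conj_mem_Sq _ _ (cm_mem_Sq _ _))
      (cm_mem_Sq _ _) hconj (hx q q.2), conj_pow_fix h2 _ _ _ (pow_sq_of (hx p p.2))]

theorem bHom_apply (i : ℕ) (x : G) (hx : ∀ y : G, (cm x y) ^ (2 ^ (i + 1)) = 1) (y : G) :
    bHom hG h2 i x hx y = (cm x y) ^ (2 ^ i) := rfl

theorem yHom_apply (i : ℕ) (x : G) (hx : ∀ p ∈ Sq G, (cm p x) ^ (2 ^ (i + 1)) = 1) (p : Sq G) :
    yHom hG h2 i x hx p = (cm (p : G) x) ^ (2 ^ i) := rfl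

include hG h2 in
/-- If all commutators `[x,y]` have order dividing `2^(i+1)`, then for `p` in the group generated
by squares `[x,p]` has order dividing `2^i`. -/
theorem cm_Sq_pow (i : ℕ) (x : G) (hx : ∀ y : G, (cm x y) ^ (2 ^ (i + 1)) = 1) (p : G)
    (hp : p ∈ Sq G) : (cm x p) ^ (2 ^ i) = 1 := by
  have hle : Sq G ≤ (bHom hG h2 i x hx).ker := by
    rw [Sq, Subgroup.closure_le]
    rintro _ ⟨g, rfl⟩
    rw [SetLike.mem_coe, MonoidHom.mem_ker, map_pow, bHom_apply]
    exact pow_sq_of (hx g)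
  exact hle hp

theorem inv_pow_eq_one' {x : G} {n : ℕ} (h : x ^ n = 1) : (x⁻¹) ^ n = 1 := by
  rw [inv_pow, h, inv_one]

include hG h2 in
/-- The descent step. -/
theorem star_step (hmin : ∀ H : Subgroup G, (Sq G).index ≤ (Sq H).index → H = ⊤) (j : ℕ)
    (hstar : ∀ x : G, x ^ (2 ^ (j + 1 + 1 + 1)) = 1 → ∀ y : G, (cm x y) ^ (2 ^ (j + 1 + 1)) = 1)
    (x : G) (hx : x ^ (2 ^ (j + 1 + 1)) = 1) (y : G) : (cm x y) ^ (2 ^ (j + 1)) = 1 := by
  have h1 : ∀ y : G, (cm x y) ^ (2 ^ (j + 1 + 1)) = 1 := by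
    apply hstar
    rw [pow_succ, pow_mul, hx, one_pow]
  have h3 : ∀ p ∈ Sq G, (cm p x) ^ (2 ^ (j + 1)) = 1 := by
    intro p hp
    rw [← cm_inv]
    exact inv_pow_eq_one' (cm_Sq_pow hG h2 (j + 1) x h1 p hp)
  set b := bHom hG h2 (j + 1) x h1 with hb
  set Y := yHom hG h2 j x h3 with hY
  -- squares of elements of the kernel of b are killed by Y
  have hker : ∀ y ∈ b.ker, Y ⟨y ^ 2, sq_mem_Sq y⟩ = 1 := by
    intro y hy
    rw [MonoidHom.mem_ker, hb, bHom_apply] at hy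
    rw [hY, yHom_apply]
    show (cm (y ^ 2) x) ^ (2 ^ j) = 1
    have h4 : (cm y x) ^ (2 ^ (j + 1)) = 1 := by
      rw [← cm_inv]; exact inv_pow_eq_one' hy
    have h5 : (y⁻¹ * cm y x * y) ^ (2 ^ (j + 1)) = 1 := by
      rw [conj_pow', h4]; group
    rw [pow_two y, cm_mul_left, pow_hom_Sq hG h2 j _ _ (conj_mem_Sq _ _ (cm_mem_Sq _ _))
      (cm_mem_Sq _ _) h5 h4, conj_pow_fix h2 _ _ _ (pow_sq_of h4), ← pow_two]
    exact pow_sq_of h4
  -- the range of b is contained in the range of Y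
  have hrange : b.range ≤ Y.range := by
    rintro _ ⟨y, rfl⟩
    have hc1 := h1 y
    set c := cm x y with hc
    have hcS : c ∈ Sq G := cm_mem_Sq _ _
    have h6 : (cm (x ^ 2) y) ^ (2 ^ j) = 1 := by
      have h7 : cm (x ^ 2) y = (x ^ 2)⁻¹ * (y⁻¹ * x ^ 2 * y) := by simp only [cm]; group
      have h8 : (x ^ 2) ^ (2 ^ (j + 1)) = 1 := by
        rw [← pow_mul, ← pow_succ']; exact hx
      have h9 : (y⁻¹ * x ^ 2 * y) ^ (2 ^ (j + 1)) = 1 := by
        rw [conj_pow', h8]; group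
      rw [h7, pow_hom_Sq hG h2 j _ _ (Subgroup.inv_mem _ (sq_mem_Sq _))
        (conj_mem_Sq _ _ (sq_mem_Sq _)) (inv_pow_eq_one' h8) h9,
        conj_pow_fix h2 _ _ _ (pow_sq_of h8), inv_pow, inv_mul_cancel]
    have h10 : cm (x ^ 2) y = c ^ 2 * (c⁻¹ * cm c x * c) := by
      rw [hc]; simp only [cm, pow_two]; group
    have h11 : (c ^ 2) ^ (2 ^ (j + 1)) = 1 := by
      rw [← pow_mul, ← pow_succ']; exact hc1
    have h12 : (c⁻¹ * cm c x * c) ^ (2 ^ (j + 1)) = 1 := by
      rw [conj_pow', h3 c hcS]; group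
    have h13 : (cm (x ^ 2) y) ^ (2 ^ j) = c ^ (2 ^ (j + 1)) * (cm c x) ^ (2 ^ j) := by
      rw [h10, pow_hom_Sq hG h2 j _ _ (Subgroup.pow_mem _ hcS 2)
        (conj_mem_Sq _ _ (cm_mem_Sq _ _)) h11 h12, conj_pow_fix h2 _ _ _ (pow_sq_of (h3 c hcS)),
        ← pow_mul, ← pow_succ']
    refine ⟨(⟨c, hcS⟩ : Sq G)⁻¹, ?_⟩
    rw [map_inv, hY, yHom_apply, hb, bHom_apply, ← hc]
    show ((cm c x) ^ (2 ^ j))⁻¹ = c ^ (2 ^ (j + 1))
    rw [h6] at h13
    exact (eq_inv_of_mul_eq_one_left h13.symm).symm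
  -- counting
  have hcard : (Sq G).index ≤ (Sq b.ker).index := by
    have e1 : (Sq b.ker).index * Nat.card (Sq b.ker) = Nat.card b.ker :=
      Subgroup.index_mul_card _
    have e2 : (b.ker).index * Nat.card b.ker = Nat.card G := Subgroup.index_mul_card _
    have e3 : (Sq G).index * Nat.card (Sq G) = Nat.card G := Subgroup.index_mul_card _
    have e4 : (Y.ker).index * Nat.card Y.ker = Nat.card (Sq G) := Subgroup.index_mul_card _
    have e5 : (b.ker).index = Nat.card b.range := Subgroup.index_ker b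
    have e6 : (Y.ker).index = Nat.card Y.range := Subgroup.index_ker Y
    have e7 : Nat.card b.range ≤ Nat.card Y.range := by
      exact Nat.card_le_card_of_injective (Subgroup.inclusion hrange)
        (Subgroup.inclusion_injective hrange)
    have e8 : Nat.card (Sq b.ker) ≤ Nat.card Y.ker := by
      have hle : ∀ z ∈ Sq b.ker, ∃ h : (z : G) ∈ Sq G, (⟨(z : G), h⟩ : Sq G) ∈ Y.ker := by
        have hle2 : Sq b.ker ≤ ((Y.ker).map (Sq G).subtype).comap (b.ker).subtype := by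
          rw [Sq, Subgroup.closure_le]
          rintro _ ⟨g, rfl⟩
          rw [SetLike.mem_coe, Subgroup.mem_comap, Subgroup.mem_map]
          exact ⟨⟨(g : G) ^ 2, sq_mem_Sq _⟩, MonoidHom.mem_ker.mpr (hker g g.2), rfl⟩
        intro z hz
        have := hle2 hz
        rw [Subgroup.mem_comap, Subgroup.mem_map] at this
        obtain ⟨w, hw, hwz⟩ := this
        have hwz' : (w : G) = (z : G) := hwz
        refine ⟨hwz' ▸ w.2, ?_⟩
        have : (⟨(z : G), hwz' ▸ w.2⟩ : Sq G) = w := Subtype.ext hwz'.symm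
        rw [this]; exact hw
      refine Nat.card_le_card_of_injective
        (fun z : Sq b.ker => (⟨⟨((z : b.ker) : G), (hle z z.2).1⟩, (hle z z.2).2⟩ : Y.ker)) ?_
      intro z w hzw
      have h14 := congrArg (fun t : Y.ker => ((t : Sq G) : G)) hzw
      exact Subtype.ext (Subtype.ext h14)
    have p1 : 0 < Nat.card Y.ker := Nat.card_pos
    have p2 : 0 < Nat.card Y.range := Nat.card_pos
    rw [e5] at e2
    rw [e6] at e4
    set a := (Sq b.ker).index
    set s := Nat.card (Sq b.ker)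
    set k := Nat.card Y.ker
    set rY := Nat.card Y.range
    set rb := Nat.card b.range
    have e9 : (Sq G).index * (rY * k) = rb * (a * s) := by rw [e4, e3, e1, e2]
    have e10 : rb * (a * s) ≤ rY * (a * k) :=
      Nat.mul_le_mul e7 (Nat.mul_le_mul_left a e8)
    have e11 : (Sq G).index * (rY * k) ≤ a * (rY * k) := by
      rw [e9]; calc rb * (a * s) ≤ rY * (a * k) := e10
        _ = a * (rY * k) := by ring
    exact Nat.le_of_mul_le_mul_right e11 (Nat.mul_pos p2 p1)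
  have htop := hmin b.ker hcard
  have : y ∈ b.ker := by rw [htop]; trivial
  rw [MonoidHom.mem_ker, hb, bHom_apply] at this
  exact this

include hG h2 in
/-- The full descent. -/
theorem star (hmin : ∀ H : Subgroup G, (Sq G).index ≤ (Sq H).index → H = ⊤) (i : ℕ)
    (x : G) (hx : x ^ (2 ^ (i + 1)) = 1) (y : G) : (cm x y) ^ (2 ^ i) = 1 := by
  -- downward induction
  obtain ⟨N, hN⟩ : ∃ N : ℕ, ∀ g : G, g ^ (2 ^ N) = 1 := by
    obtain ⟨n, hn⟩ := (IsPGroup.iff_card (p := 2)).mp hG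
    exact ⟨n, fun g => by rw [← hn]; exact pow_card_eq_one'⟩
  have key : ∀ d i : ℕ, i + d = N + 1 → ∀ x : G, x ^ (2 ^ (i + 1)) = 1 → ∀ y : G,
      (cm x y) ^ (2 ^ i) = 1 := by
    intro d
    induction d with
    | zero =>
      intro i hi x _ y
      have : i = N + 1 := by omega
      rw [this, pow_succ, pow_mul, hN, one_pow]
    | succ d ih =>
      intro i hi x hx y
      rcases i with _ | j
      · have hx2 : x ^ 2 = 1 := by simpa using hx
        have := Subgroup.mem_center_iff.mp (h2 x hx2) y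
        rw [pow_zero, pow_one, cm, mul_assoc, mul_assoc, ← mul_assoc x⁻¹, ← this]
        group
      · exact star_step hG h2 hmin j (ih (j + 1 + 1) (by omega)) x hx y
  by_cases hi : i ≤ N + 1
  · exact key (N + 1 - i) i (by omega) x hx y
  · have : i = N + (i - N) := by omega
    rw [this, pow_add, pow_mul, hN, one_pow]

end Step

end Pool.Agent.Lib_helper42
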