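import Mathlib
import Pool.Agent.Lib_helper42.TwoCentral3
import Pool.Agent.Lib_helper42.ChevWarn

/-! The final count for finite 2-groups with central involutions. -/

set_option autoImplicit false

namespace Pool.Agent.Lib_helper42

universe u

section Count

variable {G : Type u} [Group G] [Finite G] (hG : IsPGroup 2 G)
  (h2 : ∀ x : G, x ^ 2 = 1 → x ∈ Subgroup.center G)
  (hstar : ∀ (i : ℕ) (x : G), x ^ (2 ^ (i + 1)) = 1 → ∀ y : G, (cm x y) ^ (2 ^ i) = 1)

theorem mul_sq_eq (x y : G) : (x * y) ^ 2 = x ^ 2 * cm x y⁻¹ * y ^ 2 := by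
  simp only [cm, pow_two]; group

/-- elements of order dividing `2^i` in the subgroup generated by squares. -/
def Ps (i : ℕ) : Subgroup G where
  carrier := {p | p ∈ Sq G ∧ p ^ (2 ^ i) = 1}
  one_mem' := ⟨Subgroup.one_mem _, one_pow _⟩
  mul_mem' := by
    rintro x y ⟨hx1, hx2⟩ ⟨hy1, hy2⟩
    refine ⟨Subgroup.mul_mem _ hx1 hy1, ?_⟩
    rcases i with _ | i
    · simp only [pow_zero, pow_one] at hx2 hy2 ⊢
      rw [hx2, hy2, one_mul]
    · have h := pow_hom_Sq hG h2 i x y hx1 hy1 hx2 hy2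
      have hc : Commute (x ^ (2 ^ i)) (y ^ (2 ^ i)) :=
        (Subgroup.mem_center_iff.mp (h2 _ (pow_sq_of hx2)) _).symm
      rw [pow_succ, pow_mul, h, hc.mul_pow, pow_sq_of hx2, pow_sq_of hy2, one_mul]
  inv_mem' := by
    rintro x ⟨hx1, hx2⟩
    exact ⟨Subgroup.inv_mem _ hx1, inv_pow_eq_one' hx2⟩

/-- elements of order dividing `2^i`. -/
def Gs (i : ℕ) : Subgroup G where
  carrier := {p | p ^ (2 ^ i) = 1}
  one_mem' := one_pow _
  mul_mem' := by
    intro x y hx hy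
    have hx' : x ^ (2 ^ i) = 1 := hx
    have hy' : y ^ (2 ^ i) = 1 := hy
    show (x * y) ^ (2 ^ i) = 1
    rcases i with _ | i
    · simp only [pow_zero, pow_one] at hx' hy' ⊢
      rw [hx', hy', one_mul]
    · have e1 : x ^ 2 ∈ Ps hG h2 i := ⟨sq_mem_Sq _, by rw [← pow_mul, ← pow_succ']; exact hx'⟩
      have e2 : y ^ 2 ∈ Ps hG h2 i := ⟨sq_mem_Sq _, by rw [← pow_mul, ← pow_succ']; exact hy'⟩
      have e3 : cm x y⁻¹ ∈ Ps hG h2 i := ⟨cm_mem_Sq _ _, hstar i x hx' _⟩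
      have e4 := ((Ps hG h2 i).mul_mem ((Ps hG h2 i).mul_mem e1 e3) e2).2
      rw [pow_succ', pow_mul, mul_sq_eq]
      exact e4
  inv_mem' := by
    intro x hx
    exact inv_pow_eq_one' hx

theorem mem_Gs {i : ℕ} {x : G} : x ∈ Gs hG h2 hstar i ↔ x ^ (2 ^ i) = 1 := Iff.rfl

theorem mem_Ps {i : ℕ} {x : G} : x ∈ Ps hG h2 i ↔ (x ∈ Sq G ∧ x ^ (2 ^ i) = 1) := Iff.rfl

/-- the power map `p ↦ p^(2^i)` on `Ps (i+1)`. -/
def powHom (i : ℕ) : Ps hG h2 (i + 1) →* G where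
  toFun p := (p : G) ^ (2 ^ i)
  map_one' := by simp
  map_mul' := by
    intro p q
    rw [Subgroup.coe_mul]
    exact pow_hom_Sq hG h2 i p q p.2.1 q.2.1 p.2.2 q.2.2

/-- the image of the power map. -/
def Ws (i : ℕ) : Subgroup G := (powHom hG h2 i).range

theorem mem_Ws {i : ℕ} {w : G} : w ∈ Ws hG h2 i ↔
    ∃ p : G, p ∈ Sq G ∧ p ^ (2 ^ (i + 1)) = 1 ∧ p ^ (2 ^ i) = w := by
  constructor
  · rintro ⟨p, rfl⟩
    exact ⟨p, p.2.1, p.2.2, rfl⟩
  · rintro ⟨p, h1, h3, rfl⟩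
    exact ⟨⟨p, h1, h3⟩, rfl⟩

theorem Ws_sq {i : ℕ} {w : G} (hw : w ∈ Ws hG h2 i) : w ^ 2 = 1 := by
  rw [mem_Ws] at hw
  obtain ⟨p, _, h3, rfl⟩ := hw
  exact pow_sq_of h3

theorem card_Ps_succ (i : ℕ) :
    Nat.card (Ps hG h2 (i + 1)) = Nat.card (Ps hG h2 i) * Nat.card (Ws hG h2 i) := by
  have e1 := Subgroup.index_mul_card (powHom hG h2 i).ker
  have e2 : (powHom hG h2 i).ker.index = Nat.card (Ws hG h2 i) := Subgroup.index_ker _
  have e3 : Nat.card (powHom hG h2 i).ker = Nat.card (Ps hG h2 i) := by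
    refine Nat.card_congr ⟨fun z => ⟨(z : Ps hG h2 (i + 1)), z.1.2.1, MonoidHom.mem_ker.mp z.2⟩,
      fun z => ⟨⟨z, z.2.1, ?_⟩, ?_⟩, ?_, ?_⟩
    · rw [pow_succ, pow_mul, z.2.2, one_pow]
    · exact MonoidHom.mem_ker.mpr z.2.2
    · intro z; rfl
    · intro z; rfl
  rw [← e1, e2, e3, mul_comm]

theorem Ws_le (j : ℕ) : Ws hG h2 (j + 1) ≤ Ws hG h2 j := by
  intro w hw
  rw [mem_Ws] at hw ⊢
  obtain ⟨p, h1, h3, rfl⟩ := hw
  refine ⟨p ^ 2, Subgroup.pow_mem _ h1 2, ?_, ?_⟩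
  · rw [← pow_mul, ← pow_succ']; exact h3
  · rw [← pow_mul, ← pow_succ']

include hstar in
/-- The Chevalley-Warning step. -/
theorem card_step (j : ℕ) :
    Nat.card (Gs hG h2 hstar (j + 2)) * Nat.card (Ws hG h2 (j + 1)) ≤
      Nat.card (Gs hG h2 hstar (j + 1)) * (Nat.card (Ws hG h2 j)) ^ 2 := by
  have hle : Gs hG h2 hstar (j + 1) ≤ Gs hG h2 hstar (j + 2) := by
    intro x hx
    rw [mem_Gs] at hx ⊢
    rw [pow_succ, pow_mul, hx, one_pow]
  have hcm : ∀ x ∈ Gs hG h2 hstar (j + 2), ∀ y : G, (cm x y) ^ (2 ^ (j + 1)) = 1 := by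
    intro x hx y
    exact hstar (j + 1) x hx y
  have hcmW : ∀ x ∈ Gs hG h2 hstar (j + 2), ∀ y : G, (cm x y) ^ (2 ^ j) ∈ Ws hG h2 j := by
    intro x hx y
    rw [mem_Ws]
    exact ⟨cm x y, cm_mem_Sq _ _, hcm x hx y, rfl⟩
  have hsqW : ∀ x ∈ Gs hG h2 hstar (j + 2), x ^ (2 ^ (j + 1)) ∈ Ws hG h2 j := by
    intro x hx
    rw [mem_Ws]
    refine ⟨x ^ 2, sq_mem_Sq _, ?_, ?_⟩
    · rw [← pow_mul, ← pow_succ']; exact hx
    · rw [← pow_mul, ← pow_succ']
  let φ : Gs hG h2 hstar (j + 2) → Ws hG h2 j := fun x => ⟨(x : G) ^ (2 ^ (j + 1)), hsqW x x.2⟩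
  let β : Gs hG h2 hstar (j + 2) → Gs hG h2 hstar (j + 2) → Ws hG h2 j :=
    fun x y => ⟨(cm (x : G) y) ^ (2 ^ j), hcmW x x.2 y⟩
  have hmul1 : ∀ x x' y : Gs hG h2 hstar (j + 2), β (x * x') y = β x y * β x' y := by
    intro x x' y
    apply Subtype.ext
    show (cm ((x : G) * x') y) ^ (2 ^ j) = (cm (x : G) y) ^ (2 ^ j) * (cm (x' : G) y) ^ (2 ^ j)
    have h5 : ((x' : G)⁻¹ * cm (x : G) y * x') ^ (2 ^ (j + 1)) = 1 := by
      rw [conj_pow', hcm x x.2]; group
    rw [cm_mul_left, pow_hom_Sq hG h2 j _ _ (conj_mem_Sq _ _ (cm_mem_Sq _ _)) (cm_mem_Sq _ _) h5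
      (hcm x' x'.2 y), conj_pow_fix h2 _ _ _ (pow_sq_of (hcm x x.2 y))]
  have hmul2 : ∀ x y y' : Gs hG h2 hstar (j + 2), β x (y * y') = β x y * β x y' := by
    intro x y y'
    apply Subtype.ext
    exact map_mul (bHom hG h2 j (x : G) (hcm x x.2)) (y : G) (y' : G)
  have hβinv : ∀ x y : G, x ∈ Gs hG h2 hstar (j + 2) →
      (cm x y⁻¹) ^ (2 ^ j) = (cm x y) ^ (2 ^ j) := by
    intro x y hx
    have h := map_inv (bHom hG h2 j x (hcm x hx)) y
    rw [bHom_apply, bHom_apply] at h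
    rw [h]
    have h3 := pow_sq_of (hcm x hx y)
    rw [pow_two] at h3
    exact inv_eq_of_mul_eq_one_right h3
  have hφmul : ∀ x y : Gs hG h2 hstar (j + 2), φ (x * y) = φ x * φ y * β x y := by
    intro x y
    apply Subtype.ext
    show ((x : G) * y) ^ (2 ^ (j + 1)) = (x : G) ^ (2 ^ (j + 1)) * (y : G) ^ (2 ^ (j + 1)) *
      (cm (x : G) y) ^ (2 ^ j)
    have e1 : (x : G) ^ 2 ∈ Ps hG h2 (j + 1) :=
      ⟨sq_mem_Sq _, by rw [← pow_mul, ← pow_succ']; exact x.2⟩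
    have e2 : (y : G) ^ 2 ∈ Ps hG h2 (j + 1) :=
      ⟨sq_mem_Sq _, by rw [← pow_mul, ← pow_succ']; exact y.2⟩
    have e3 : cm (x : G) (y : G)⁻¹ ∈ Ps hG h2 (j + 1) := ⟨cm_mem_Sq _ _, hcm x x.2 _⟩
    have h6 := (map_mul (powHom hG h2 j) (⟨_, e1⟩ * ⟨_, e3⟩) ⟨_, e2⟩).trans
      (congrArg (· * (powHom hG h2 j) ⟨_, e2⟩) (map_mul (powHom hG h2 j) ⟨_, e1⟩ ⟨_, e3⟩))
    have h7 : ((x : G) ^ 2 * cm (x : G) (y : G)⁻¹ * (y : G) ^ 2) ^ (2 ^ j) =
      ((x : G) ^ 2) ^ (2 ^ j) * (cm (x : G) (y : G)⁻¹) ^ (2 ^ j) * ((y : G) ^ 2) ^ (2 ^ j) := h6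
    have hcen := Subgroup.mem_center_iff.mp (h2 _ (pow_sq_of (hcm x x.2 y)))
      (((y : G) ^ 2) ^ (2 ^ j))
    rw [pow_succ', pow_mul, mul_sq_eq, h7, hβinv x y x.2, ← pow_mul, ← pow_mul, mul_assoc,
      pow_mul, pow_mul, ← hcen, ← mul_assoc]
  let G0 : Subgroup (Gs hG h2 hstar (j + 2)) :=
    (Gs hG h2 hstar (j + 1)).subgroupOf (Gs hG h2 hstar (j + 2))
  have hG0 : ∀ x, φ x = 1 ↔ x ∈ G0 := by
    intro x
    constructor
    · intro h
      exact congrArg Subtype.val h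
    · intro h
      exact Subtype.ext h
  have hrad : ∀ g ∈ G0, ∀ y, β g y = 1 ∧ β y g = 1 := by
    intro g hg y
    have h8 : (cm (g : G) y) ^ (2 ^ j) = 1 := hstar j g hg y
    constructor
    · exact Subtype.ext h8
    · apply Subtype.ext
      show (cm (y : G) g) ^ (2 ^ j) = 1
      rw [← cm_inv]
      exact inv_pow_eq_one' h8
  have hsq : ∀ x : Gs hG h2 hstar (j + 2), x ^ 2 ∈ G0 := by
    intro x
    show ((x : G) ^ 2) ^ (2 ^ (j + 1)) = 1
    rw [← pow_mul, ← pow_succ']; exact x.2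
  let W : Subgroup (Ws hG h2 j) := (Ws hG h2 (j + 1)).subgroupOf (Ws hG h2 j)
  have hW : ∀ w ∈ W, ∃ p, φ p = w ∧ ∀ y, β p y = 1 := by
    intro w hw
    have hw' : (w : G) ∈ Ws hG h2 (j + 1) := hw
    rw [mem_Ws] at hw'
    obtain ⟨p, hp1, hp2, hp3⟩ := hw'
    refine ⟨⟨p, hp2⟩, Subtype.ext hp3, ?_⟩
    intro y
    apply Subtype.ext
    show (cm p (y : G)) ^ (2 ^ j) = 1
    rw [← cm_inv]
    exact inv_pow_eq_one' (cm_Sq_pow hG h2 j (y : G) (hcm y y.2) p hp1)
  have hB : ∀ b : Ws hG h2 j, b ^ 2 = 1 := by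
    intro b
    exact Subtype.ext (Ws_sq hG h2 b.2)
  have hfin := cw_group _ _ hB φ β hφmul hmul1 hmul2 G0 hG0 hrad hsq W hW
  have e1 : Nat.card G0 = Nat.card (Gs hG h2 hstar (j + 1)) :=
    Nat.card_congr (Subgroup.subgroupOfEquivOfLe hle).toEquiv
  have e2 : Nat.card W = Nat.card (Ws hG h2 (j + 1)) :=
    Nat.card_congr (Subgroup.subgroupOfEquivOfLe (Ws_le hG h2 j)).toEquiv
  rw [e1, e2] at hfin
  exact hfin

theorem card_induct (i : ℕ) :
    Nat.card (Gs hG h2 hstar (i + 1)) * (Nat.card (Ws hG h2 i)) ^ 2 ≤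
      Nat.card (Ps hG h2 (i + 1)) * (Nat.card (Gs hG h2 hstar 1) * Nat.card (Ws hG h2 0)) := by
  induction i with
  | zero =>
    rw [card_Ps_succ]
    have : Nat.card (Ps hG h2 0) = 1 := by
      rw [Nat.card_eq_one_iff_unique]
      refine ⟨⟨?_⟩, ⟨1⟩⟩
      intro a b
      have ha := a.2.2
      have hb := b.2.2
      rw [pow_zero, pow_one] at ha hb
      exact Subtype.ext (ha.trans hb.symm)
    rw [this, one_mul]
    exact le_of_eq (by ring)
  | succ j ih =>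
    have hstep := card_step hG h2 hstar j
    rw [card_Ps_succ]
    calc Nat.card (Gs hG h2 hstar (j + 1 + 1)) * (Nat.card (Ws hG h2 (j + 1))) ^ 2
        = (Nat.card (Gs hG h2 hstar (j + 2)) * Nat.card (Ws hG h2 (j + 1))) *
          Nat.card (Ws hG h2 (j + 1)) := by ring
      _ ≤ (Nat.card (Gs hG h2 hstar (j + 1)) * (Nat.card (Ws hG h2 j)) ^ 2) *
          Nat.card (Ws hG h2 (j + 1)) := Nat.mul_le_mul_right _ hstep
      _ ≤ (Nat.card (Ps hG h2 (j + 1)) *
          (Nat.card (Gs hG h2 hstar 1) * Nat.card (Ws hG h2 0))) *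
          Nat.card (Ws hG h2 (j + 1)) := Nat.mul_le_mul_right _ ih
      _ = _ := by ring

include hG h2 hstar in
/-- Under the descent property the bound holds. -/
theorem index_le_of_star : (Sq G).index ≤ (Nat.card {g : G // g ^ 2 = 1}) ^ 2 := by
  obtain ⟨N, hN⟩ : ∃ N : ℕ, ∀ g : G, g ^ (2 ^ N) = 1 := by
    obtain ⟨n, hn⟩ := (IsPGroup.iff_card (p := 2)).mp hG
    exact ⟨n, fun g => by rw [← hn]; exact pow_card_eq_one'⟩
  have h := card_induct hG h2 hstar N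
  have e1 : Nat.card (Gs hG h2 hstar (N + 1)) = Nat.card G := by
    have : Gs hG h2 hstar (N + 1) = ⊤ := by
      rw [Subgroup.eq_top_iff']
      intro x
      rw [mem_Gs, pow_succ, pow_mul, hN, one_pow]
    rw [this]; exact Subgroup.card_top
  have e2 : Nat.card (Ps hG h2 (N + 1)) = Nat.card (Sq G) := by
    have : Ps hG h2 (N + 1) = Sq G := by
      ext x
      rw [mem_Ps]
      constructor
      · exact fun h => h.1
      · exact fun h => ⟨h, by rw [pow_succ, pow_mul, hN, one_pow]⟩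
    rw [this]
  have e3 : Nat.card (Gs hG h2 hstar 1) = Nat.card {g : G // g ^ 2 = 1} := by
    refine Nat.card_congr (Equiv.subtypeEquivRight ?_)
    intro x
    rw [mem_Gs]; simp
  have e4 : Nat.card (Ws hG h2 0) ≤ Nat.card {g : G // g ^ 2 = 1} := by
    refine Nat.card_le_card_of_injective
      (fun w : Ws hG h2 0 => (⟨(w : G), Ws_sq hG h2 w.2⟩ : {g : G // g ^ 2 = 1})) ?_
    intro a b hab
    have hab' := congrArg (fun t : {g : G // g ^ 2 = 1} => (t : G)) hab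
    exact Subtype.ext hab'
  have e5 : 1 ≤ (Nat.card (Ws hG h2 N)) ^ 2 := Nat.one_le_pow _ _ Nat.card_pos
  rw [e1, e2, e3] at h
  have e6 : (Sq G).index * Nat.card (Sq G) = Nat.card G := Subgroup.index_mul_card _
  have h7 : (Sq G).index * Nat.card (Sq G) ≤
      (Nat.card {g : G // g ^ 2 = 1}) ^ 2 * Nat.card (Sq G) := by
    rw [e6]
    calc Nat.card G ≤ Nat.card G * (Nat.card (Ws hG h2 N)) ^ 2 := Nat.le_mul_of_pos_right _ e5
      _ ≤ Nat.card (Sq G) * (Nat.card {g : G // g ^ 2 = 1} * Nat.card (Ws hG h2 0)) := h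
      _ ≤ Nat.card (Sq G) * (Nat.card {g : G // g ^ 2 = 1} * Nat.card {g : G // g ^ 2 = 1}) :=
        Nat.mul_le_mul_left _ (Nat.mul_le_mul_left _ e4)
      _ = _ := by ring
  exact Nat.le_of_mul_le_mul_right h7 Nat.card_pos

end Count

/-- **Main theorem**: in a finite 2-group with central involutions the index of the subgroup
generated by squares is at most the square of the number of solutions of `g^2 = 1`. -/
theorem index_Sq_le (n : ℕ) : ∀ (G : Type u) [Group G] [Finite G], Nat.card G = n →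
    IsPGroup 2 G → (∀ x : G, x ^ 2 = 1 → x ∈ Subgroup.center G) →
    (Sq G).index ≤ (Nat.card {g : G // g ^ 2 = 1}) ^ 2 := by
  induction n using Nat.strong_induction_on with
  | _ n ih =>
    intro G _ _ hn hG h2
    by_contra hcon
    push Not at hcon
    have hmin : ∀ H : Subgroup G, (Sq G).index ≤ (Sq H).index → H = ⊤ := by
      intro H hH
      by_contra hne
      have hlt : Nat.card H < n := by
        rw [← hn]
        refine lt_of_le_of_ne (Subgroup.card_le_card_group H) ?_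
        intro heq
        exact hne (Subgroup.eq_top_of_card_eq H heq)
      have h2H : ∀ x : H, x ^ 2 = 1 → x ∈ Subgroup.center H := by
        intro x hx
        rw [Subgroup.mem_center_iff]
        intro y
        apply Subtype.ext
        have hx' : (x : G) ^ 2 = 1 := by
          rw [← Subgroup.coe_pow, hx, Subgroup.coe_one]
        simpa using Subgroup.mem_center_iff.mp (h2 _ hx') (y : G)
      have h3 := ih _ hlt H rfl (hG.to_subgroup H) h2H
      have h4 : Nat.card {g : H // g ^ 2 = 1} ≤ Nat.card {g : G // g ^ 2 = 1} := by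
        refine Nat.card_le_card_of_injective
          (fun w : {g : H // g ^ 2 = 1} => (⟨((w : H) : G), by
            rw [← Subgroup.coe_pow, w.2, Subgroup.coe_one]⟩ : {g : G // g ^ 2 = 1})) ?_
        intro a b hab
        have hab' := congrArg (fun t : {g : G // g ^ 2 = 1} => (t : G)) hab
        exact Subtype.ext (Subtype.ext hab')
      have h5 : (Nat.card {g : H // g ^ 2 = 1}) ^ 2 ≤ (Nat.card {g : G // g ^ 2 = 1}) ^ 2 :=
        Nat.pow_le_pow_left h4 2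
      omega
    have hst : ∀ (i : ℕ) (x : G), x ^ (2 ^ (i + 1)) = 1 → ∀ y : G, (cm x y) ^ (2 ^ i) = 1 :=
      fun i x hx y => star hG h2 hmin i x hx y
    have := index_le_of_star hG h2 hst
    omega

/-- The number of solutions of `z^2 = 1` in a finite abelian 2-group is at most `2^rank`. -/
theorem card_two_torsion_le (Z : Type u) [CommGroup Z] [Finite Z] :
    Nat.card {z : Z // z ^ 2 = 1} ≤ 2 ^ (Group.rank Z) := by
  let f : Z →* Z := powMonoidHom 2
  have e1 : Nat.card {z : Z // z ^ 2 = 1} = Nat.card f.ker := by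
    refine Nat.card_congr (Equiv.subtypeEquivRight ?_)
    intro x
    rw [MonoidHom.mem_ker]; rfl
  have e2 : f.ker.index * Nat.card f.ker = Nat.card Z := Subgroup.index_mul_card _
  have e3 : f.ker.index = Nat.card f.range := Subgroup.index_ker f
  have e4 : f.range.index * Nat.card f.range = Nat.card Z := Subgroup.index_mul_card _
  have e5 : Nat.card f.ker = f.range.index := by
    rw [e3] at e2
    have hpos : 0 < Nat.card f.range := Nat.card_pos
    have : Nat.card f.ker * Nat.card f.range = f.range.index * Nat.card f.range := by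
      rw [e4, ← e2, mul_comm]
    exact Nat.eq_of_mul_eq_mul_right hpos this
  have e6 : f.range.index = Nat.card (Z ⧸ f.range) := rfl
  have e7 : Nat.card (Z ⧸ f.range) ∣ Monoid.exponent (Z ⧸ f.range) ^ Group.rank (Z ⧸ f.range) :=
    card_dvd_exponent_pow_rank _
  have e8 : Monoid.exponent (Z ⧸ f.range) ∣ 2 := by
    apply Monoid.exponent_dvd_of_forall_pow_eq_one
    intro xb
    refine QuotientGroup.induction_on xb ?_
    intro x
    rw [← QuotientGroup.mk_pow, QuotientGroup.eq_one_iff]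
    exact ⟨x, rfl⟩
  have e9 : Group.rank (Z ⧸ f.range) ≤ Group.rank Z :=
    Group.rank_le_of_surjective (QuotientGroup.mk' f.range) (QuotientGroup.mk'_surjective _)
  rw [e1, e5, e6]
  have e10 : Nat.card (Z ⧸ f.range) ∣ 2 ^ Group.rank (Z ⧸ f.range) :=
    e7.trans (pow_dvd_pow_of_dvd e8 _)
  calc Nat.card (Z ⧸ f.range) ≤ 2 ^ Group.rank (Z ⧸ f.range) :=
        Nat.le_of_dvd (by positivity) e10
    _ ≤ 2 ^ Group.rank Z := Nat.pow_le_pow_right (by norm_num) e9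

end Pool.Agent.Lib_helper42
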